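import Mathlib

set_option autoImplicit false

open Polynomial

namespace Pool.Agent.H.PisT

/-- the substitution a ↦ ab, b ↦ abbaabb -/
def sg : Fin 2 → List (Fin 2) := ![[0, 1], [0, 1, 1, 0, 0, 1, 1]]

/-- iterates of the substitution on words -/
def it (k : ℕ) (w : List (Fin 2)) : List (Fin 2) := (fun w : List (Fin 2) => w.flatMap sg)^[k] w

lemma it_app (k : ℕ) : ∀ u v, it k (u ++ v) = it k u ++ it k v := by
  induction k with
  | zero => intros; rfl
  | succ k ih => intro u v; simpa [it, List.flatMap_append] using ih (u.flatMap sg) (v.flatMap sg)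

lemma it_succ (k : ℕ) (w : List (Fin 2)) : it (k + 1) w = it k (w.flatMap sg) := rfl

def U (k : ℕ) := it k [0, 1]
def V (k : ℕ) := it k [1, 0]
def B (k : ℕ) := it k [1]
def l (k : ℕ) := (U k).length

lemma U_succ (k : ℕ) : U (k + 1) = U k ++ (U k ++ (V k ++ (U k ++ B k))) := by
  simp only [U, V, B, ← it_app, it_succ]; rfl

lemma V_succ (k : ℕ) : V (k + 1) = U k ++ (V k ++ (U k ++ (V k ++ B k))) := by
  simp only [U, V, B, ← it_app, it_succ]; rfl

lemma B_succ (k : ℕ) : B (k + 1) = U k ++ (V k ++ (U k ++ B k)) := by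
  simp only [U, V, B, ← it_app, it_succ]; rfl

lemma V_len (k : ℕ) : (V k).length = l k := by
  have h1 := it_app k [0] [1]
  have h2 := it_app k [1] [0]
  simp only [List.cons_append, List.nil_append] at h1 h2
  simp only [l, U, V, h1, h2, List.length_append, add_comm]

lemma B_pos (k : ℕ) : 1 ≤ (B k).length := by
  induction k with
  | zero => decide
  | succ k ih => rw [B_succ]; simp only [List.length_append]; omega

lemma l_succ (k : ℕ) : 4 * l k + 1 ≤ l (k + 1) := by
  have := B_pos k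
  have h := V_len k
  unfold l at *
  rw [U_succ]; simp only [List.length_append]; omega

/-- marked position -/
def N (e : ℕ → Bool) : ℕ → ℕ
  | 0 => 0
  | k + 1 => N e k + (if e k then 3 else 1) * l k

lemma N_bd (e : ℕ → Bool) (k : ℕ) : k ≤ N e k ∧ N e k + k < l k := by
  induction k with
  | zero => exact ⟨le_rfl, show 0 + 0 < 2 by decide⟩
  | succ k ih =>
    have := l_succ k
    unfold N
    split_ifs <;> omega

lemma blk {k i : ℕ} (h : i < l k) :
    (U (k + 1)).getD i 0 = (U k).getD i 0 ∧ (U (k + 1)).getD (i + l k) 0 = (U k).getD i 0 ∧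
    (U (k + 1)).getD (i + 2 * l k) 0 = (V k).getD i 0 ∧
    (U (k + 1)).getD (i + 3 * l k) 0 = (U k).getD i 0 ∧
    (V (k + 1)).getD (i + l k) 0 = (V k).getD i 0 ∧
    (V (k + 1)).getD (i + 3 * l k) 0 = (V k).getD i 0 := by
  have hv := V_len k
  have hu : (U k).length = l k := rfl
  rw [U_succ, V_succ]
  refine ⟨?_, ?_, ?_, ?_, ?_, ?_⟩
  · rw [List.getD_append _ _ _ _ (by omega)]
  · rw [List.getD_append_right _ _ _ _ (by omega), List.getD_append _ _ _ _ (by omega)]
    congr 1; omega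
  · rw [List.getD_append_right _ _ _ _ (by omega), List.getD_append_right _ _ _ _ (by omega),
      List.getD_append _ _ _ _ (by omega)]
    congr 1; omega
  · rw [List.getD_append_right _ _ _ _ (by omega), List.getD_append_right _ _ _ _ (by omega),
      List.getD_append_right _ _ _ _ (by omega), List.getD_append _ _ _ _ (by omega)]
    congr 1; omega
  · rw [List.getD_append_right _ _ _ _ (by omega), List.getD_append _ _ _ _ (by omega)]
    congr 1; omega
  · rw [List.getD_append_right _ _ _ _ (by omega), List.getD_append_right _ _ _ _ (by omega),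
      List.getD_append_right _ _ _ _ (by omega), List.getD_append _ _ _ _ (by omega)]
    congr 1; omega

lemma mark (e : ℕ → Bool) (k : ℕ) : (U k).getD (N e k) 0 = 0 ∧ (V k).getD (N e k) 0 = 1 := by
  induction k with
  | zero => exact ⟨rfl, rfl⟩
  | succ k ih =>
    have h := blk (k := k) (i := N e k) (by have := N_bd e k; omega)
    unfold N
    split_ifs
    · exact ⟨h.2.2.2.1.trans ih.1, h.2.2.2.2.2.trans ih.2⟩
    · rw [one_mul]; exact ⟨h.2.1.trans ih.1, h.2.2.2.2.1.trans ih.2⟩

def R (e : ℕ → Bool) (m : ℕ) (t : ℤ) : Prop := 0 ≤ N e m + t ∧ N e m + t < l m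

def G (e : ℕ → Bool) (m : ℕ) (t : ℤ) : Fin 2 := (U m).getD (N e m + t).toNat 0

lemma stable {e : ℕ → Bool} {m m' : ℕ} {t : ℤ} (h : R e m t) (hm : m ≤ m') :
    R e m' t ∧ G e m' t = G e m t := by
  induction m', hm using Nat.le_induction with
  | base => exact ⟨h, rfl⟩
  | succ n _ ih =>
    obtain ⟨⟨h1, h2⟩, h3⟩ := ih
    have hl := l_succ n
    have hb := blk (k := n) (i := ((N e n : ℤ) + t).toNat) (by omega)
    rw [← h3]
    unfold R G
    rw [N]
    split_ifs
    · refine ⟨by omega, ?_⟩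
      rw [← hb.2.2.2.1]; congr 1; omega
    · refine ⟨by omega, ?_⟩
      rw [← hb.2.1]; congr 1; omega

def X (e : ℕ → Bool) (t : ℤ) : Fin 2 := G e t.natAbs t

lemma R_of {e : ℕ → Bool} {m : ℕ} {t : ℤ} (h : t.natAbs ≤ m) : R e m t := by
  have := N_bd e m
  unfold R; omega

lemma X_eq {e : ℕ → Bool} {m : ℕ} {t : ℤ} (h : R e m t) : X e t = G e m t := by
  rw [X, ← (stable (R_of le_rfl) (le_max_left t.natAbs m)).2, (stable h (le_max_right _ _)).2]

lemma X_val (e : ℕ → Bool) (j : ℕ) : X e (-(l j : ℤ)) = if e j then 1 else 0 := by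
  have h0 := N_bd e j
  have hl := l_succ j
  have hb := blk (k := j) (i := N e j) (by omega)
  have hm := mark e j
  rw [X_eq (m := j + 1) (by unfold R; rw [N]; split_ifs <;> omega)]
  unfold G
  rw [N]
  split_ifs
  · refine Eq.trans ?_ (hb.2.2.1.trans hm.2); congr 1; omega
  · refine Eq.trans ?_ (hb.1.trans hm.1); congr 1; omega

lemma legal (e : ℕ → Bool) (s : ℤ) (k : ℕ) :
    List.IsInfix (List.ofFn (fun i : Fin k => X e (s + ((i : ℕ) : ℤ))))
      (it (s.natAbs + k + 1) [0]) := by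
  set m := s.natAbs + k
  have h0 := N_bd e m
  have : List.ofFn (fun i : Fin k => X e (s + ((i : ℕ) : ℤ))) =
      ((U m).drop (N e m + s).toNat).take k := by
    have hu : (U m).length = l m := rfl
    refine List.ext_getElem (by simp; omega) fun i h1 h2 => ?_
    have hi : i < k := by simpa using h1
    rw [List.getElem_ofFn, List.getElem_take, List.getElem_drop, X_eq (m := m) (R_of (by
      simp only; omega)), G, List.getD_eq_getElem _ _ (by simp only; omega)]
    congr 1
    simp only; omega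
  rw [this]
  exact (List.take_prefix _ _).isInfix.trans (List.drop_suffix _ _).isInfix

lemma mat : (Matrix.of (fun i j : Fin 2 => (((sg j).count i : ℕ) : ℚ))) = !![1, 3; 1, 4] := by
  ext i j
  fin_cases i <;> fin_cases j <;> simp [sg]

lemma cp : (!![1, 3; 1, 4] : Matrix (Fin 2) (Fin 2) ℚ).charpoly = Polynomial.X ^ 2 - C 5 * Polynomial.X + C 1 := by
  rw [Matrix.charpoly_fin_two]
  norm_num [Matrix.trace_fin_two, Matrix.det_fin_two]

lemma irr : Irreducible (Polynomial.X ^ 2 - C 5 * Polynomial.X + C 1 : ℚ[X]) := by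
  have hd : (Polynomial.X ^ 2 - C 5 * Polynomial.X + C 1 : ℚ[X]).natDegree = 2 := by
    compute_degree!
  rw [irreducible_iff_roots_eq_zero_of_degree_le_three hd.ge (by omega)]
  refine Multiset.eq_zero_of_forall_notMem fun r hr => ?_
  have h := (mem_roots'.1 hr).2
  simp only [IsRoot.def, eval_add, eval_sub, eval_pow, eval_X, eval_mul, eval_C] at h
  have h2 : IsSquare (21 : ℚ) := ⟨2 * r - 5, by linear_combination -4 * h⟩
  have h3 : IsSquare (21 : ℕ) := Rat.isSquare_natCast_iff.1 (by exact_mod_cast h2)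
  obtain ⟨k, hk⟩ := h3
  have : k ≤ 4 ∨ 5 ≤ k := by omega
  rcases this with h | h <;> nlinarith

lemma pis : ∃ r : ℝ, 1 < r ∧
    (r : ℂ) ∈ ((Polynomial.X ^ 2 - C 5 * Polynomial.X + C 1 : ℚ[X]).map (algebraMap ℚ ℂ)).roots ∧
    ∀ z ∈ ((Polynomial.X ^ 2 - C 5 * Polynomial.X + C 1 : ℚ[X]).map (algebraMap ℚ ℂ)).roots,
      z ≠ (r : ℂ) → ‖z‖ < 1 := by
  have h0 : (Polynomial.X ^ 2 - C 5 * Polynomial.X + C 1 : ℚ[X]).map (algebraMap ℚ ℂ) ≠ 0 :=
    Polynomial.map_ne_zero irr.ne_zero
  have e : ∀ z : ℂ, z ∈ ((Polynomial.X ^ 2 - C 5 * Polynomial.X + C 1 : ℚ[X]).map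
      (algebraMap ℚ ℂ)).roots ↔ z ^ 2 - 5 * z + 1 = 0 := fun z => by
    rw [mem_roots h0]; simp
  have s : √21 ^ 2 = 21 := Real.sq_sqrt (by norm_num)
  have s0 := Real.sqrt_nonneg 21
  have sc : ((√21 : ℝ) : ℂ) ^ 2 = 21 := by exact_mod_cast s
  refine ⟨(5 + √21) / 2, by linarith, (e _).2 (by push_cast; linear_combination sc / 4),
    fun z hz hne => ?_⟩
  have : (z - ((5 + √21) / 2 : ℝ)) * (z - ((5 - √21) / 2 : ℝ)) = 0 := by
    push_cast; linear_combination (e z).1 hz - sc / 4
  rw [sub_eq_zero.1 ((mul_eq_zero.1 this).resolve_left (sub_ne_zero.2 hne)), Complex.norm_real,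
    Real.norm_eq_abs, abs_lt]
  constructor <;> nlinarith

end Pool.Agent.H.PisT
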